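import Pool.Agent.X13.CB.Mat

/-!
# MP_1a5b88_nt: Q1 is false (already for `k = 4`), Q2 is true

`t_17(496) = 405038508762146334834688` has 2-adic valuation `18` and
`t_17(504) = -98392455150140920430592` has 2-adic valuation `19`; since `496 = 16*31 + 0` and
`504 = 16*31 + 8`, the valuation of `t_17(16 n + j)` is not a function of `ν₂(n+1)`, so Q1 fails for
`k = 4`.  The explicit formulas of Q2 (the cases `k = 2, 3`) hold for all `n`.

Proof of Q2: the dissection operator `U` acts on `x^i F^m`, `1 ≤ i ≤ m-1`, through an integer matrix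
`B` with `B^4 = 80 B^2 - 1024` (`m = 5`) and
`B^8 = 6560 B^6 - 8472576 B^4 + 2235564032 B^2 - 68719476736` (`m = 9`), and by induction all the
entries of `B^(k+v)` are odd multiples of the claimed power of two; moreover
`(x + ... + x^(m-1)) F^m ≡ x/(1-x)^2 (mod 2)`.
-/

namespace Pool.Agent.Results.MP_1a5b88_nt.ThueMorsePowers

open PowerSeries

/-- `t m n`: the coefficient of `x^n` in `∏_{i ≥ 0} (1 - x^(2^i))^m`; only the factors with
`2^i ≤ n`, hence `i ≤ n`, matter, so the product is taken over `i ≤ n`. -/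
noncomputable def t (m n : ℕ) : ℤ :=
  coeff n ((∏ i ∈ Finset.range (n + 1), (1 - (X : PowerSeries ℤ) ^ (2 ^ i))) ^ m)

/-- the statement of Q1 for a given `k` -/
def Q1At (k : ℕ) : Prop :=
  ∃ A : ℕ → ℕ, StrictMono A ∧ A 0 = 0 ∧
    ∀ n j : ℕ, j < 2 ^ k →
      emultiplicity (2 : ℤ) (t (2 ^ k + 1) (2 ^ k * n + j)) = (A (padicValNat 2 (n + 1)) : ℕ∞)

theorem t_eq (m n : ℕ) : t m n = coeff n (X13.CB.FF ^ m) :=
  (X13.CB.coeff_FF_pow m n (n + 1) le_rfl).symm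

theorem result :
    -- longer products do not change the coefficient
    (∀ m n N : ℕ, n + 1 ≤ N →
      coeff n ((∏ i ∈ Finset.range N, (1 - (X : PowerSeries ℤ) ^ (2 ^ i))) ^ m) = t m n) ∧
    -- Q1 is false: for `k = 4` the valuation is not even a function of `ν₂(n+1)`
    emultiplicity (2 : ℤ) (t 17 (16 * 31 + 0)) = (18 : ℕ) ∧
    emultiplicity (2 : ℤ) (t 17 (16 * 31 + 8)) = (19 : ℕ) ∧
    (¬ ∃ A : ℕ → ℕ∞, ∀ n j : ℕ, j < 2 ^ 4 →
      emultiplicity (2 : ℤ) (t (2 ^ 4 + 1) (2 ^ 4 * n + j)) = A (padicValNat 2 (n + 1))) ∧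
    (¬ ∀ k : ℕ, 2 ≤ k → Q1At k) ∧
    -- Q2 is true
    (∀ n j : ℕ, j < 4 → emultiplicity (2 : ℤ) (t 5 (4 * n + j))
      = ((4 * ((padicValNat 2 (n + 1) + 1) / 2) - padicValNat 2 (n + 1) % 2 : ℕ) : ℕ∞)) ∧
    (∀ n j : ℕ, j < 8 → emultiplicity (2 : ℤ) (t 9 (8 * n + j))
      = ((5 * ((padicValNat 2 (n + 1) + 1) / 2) - 2 * (padicValNat 2 (n + 1) % 2) : ℕ) : ℕ∞)) ∧
    Q1At 2 ∧ Q1At 3 := by
  have h1 : emultiplicity (2 : ℤ) (t 17 (16 * 31 + 0)) = (18 : ℕ) := by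
    rw [t_eq]
    exact X13.CB.val496.emult
  have h2 : emultiplicity (2 : ℤ) (t 17 (16 * 31 + 8)) = (19 : ℕ) := by
    rw [t_eq]
    exact X13.CB.val504.emult
  have h3 : ¬ ∃ A : ℕ → ℕ∞, ∀ n j : ℕ, j < 2 ^ 4 →
      emultiplicity (2 : ℤ) (t (2 ^ 4 + 1) (2 ^ 4 * n + j)) = A (padicValNat 2 (n + 1)) := by
    rintro ⟨A, hA⟩
    have h4 := hA 31 0 (by norm_num)
    have h5 := hA 31 8 (by norm_num)
    have h6 := h4.trans h5.symm
    have h7 : ((18 : ℕ) : ℕ∞) = (19 : ℕ) := by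
      rw [← h1, ← h2]
      exact h6
    have h8 : (18 : ℕ) = 19 := by exact_mod_cast h7
    omega
  have h5 : ∀ n j : ℕ, j < 4 → emultiplicity (2 : ℤ) (t 5 (4 * n + j))
      = ((4 * ((padicValNat 2 (n + 1) + 1) / 2) - padicValNat 2 (n + 1) % 2 : ℕ) : ℕ∞) := by
    intro n j hj
    rw [t_eq]
    exact (X13.CB.val5 n j hj).emult
  have h9 : ∀ n j : ℕ, j < 8 → emultiplicity (2 : ℤ) (t 9 (8 * n + j))
      = ((5 * ((padicValNat 2 (n + 1) + 1) / 2) - 2 * (padicValNat 2 (n + 1) % 2) : ℕ) : ℕ∞) := by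
    intro n j hj
    rw [t_eq]
    exact (X13.CB.val9 n j hj).emult
  refine ⟨fun m n N h => ?_, h1, h2, h3, ?_, h5, h9, ?_, ?_⟩
  · rw [t_eq]
    exact (X13.CB.coeff_FF_pow m n N h).symm
  · intro h
    obtain ⟨A, -, -, hA⟩ := h 4 (by norm_num)
    exact h3 ⟨fun v => (A v : ℕ∞), hA⟩
  · refine ⟨X13.CB.A4, ?_, rfl, h5⟩
    refine strictMono_nat_of_lt_succ fun v => ?_
    unfold X13.CB.A4
    rcases Nat.even_or_odd' v with ⟨c, rfl | rfl⟩ <;> omega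
  · refine ⟨X13.CB.A8, ?_, rfl, h9⟩
    refine strictMono_nat_of_lt_succ fun v => ?_
    unfold X13.CB.A8
    rcases Nat.even_or_odd' v with ⟨c, rfl | rfl⟩ <;> omega

end Pool.Agent.Results.MP_1a5b88_nt.ThueMorsePowers
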